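import Pool.Agent.Helper48.BinomGcdDefs
import Pool.Agent.Helper48.BinomGcd

set_option autoImplicit false

open Pool.Agent.Helper48.BinomGcd

/-- Both implications of the equivalence `G(k) = 1 ↔ k / P(k) > P(k)` fail. -/
theorem Pool.Agent.Results.MP_cb2649_nt.Literal.result :
    (∃ k : ℕ, 2 ≤ k ∧ G k = 1 ∧ ¬ (P k < k / P k)) ∧
      (∃ k : ℕ, 2 ≤ k ∧ P k < k / P k ∧ G k ≠ 1) := by
  have h30 : (30 : ℕ).primeFactors = {2, 3, 5} := by
    rw [show (30 : ℕ) = 2 * (3 * 5) by norm_num, Nat.primeFactors_mul (by norm_num) (by norm_num),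
      Nat.primeFactors_mul (by norm_num) (by norm_num), Nat.Prime.primeFactors (by norm_num),
      Nat.Prime.primeFactors (by norm_num), Nat.Prime.primeFactors (by norm_num)]
    rfl
  have hf : ∀ p, p.Prime → ¬ (p ^ 2 ∣ 30) → p ∣ 30 → (30 : ℕ).factorization p = 1 := by
    intro p hp h1 h2
    have h3 := (hp.dvd_iff_one_le_factorization (by norm_num)).mp h2
    have h4 : ¬ 2 ≤ (30 : ℕ).factorization p := fun h =>
      h1 ((hp.pow_dvd_iff_le_factorization (by norm_num)).mpr h)
    omega
  have hP30 : P 30 = 5 := by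
    unfold P
    rw [h30]
    simp only [Finset.sup_insert, Finset.sup_singleton]
    rw [hf 2 (by norm_num) (by norm_num) (by norm_num), hf 3 (by norm_num) (by norm_num) (by norm_num),
      hf 5 (by norm_num) (by norm_num) (by norm_num)]
    rfl
  have hPp : ∀ p, p.Prime → P p = p := by
    intro p hp
    unfold P
    rw [hp.primeFactors, Finset.sup_singleton, hp.factorization_self, pow_one]
  constructor
  · refine ⟨29, by norm_num, ?_, ?_⟩
    · rw [G_eq_one_iff (by norm_num), show 29 + 1 = 30 by norm_num, hP30]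
      norm_num
    · rw [hPp 29 (by norm_num)]
      norm_num
  · refine ⟨30, by norm_num, ?_, ?_⟩
    · rw [hP30]
      norm_num
    · intro h
      rw [G_eq_one_iff (by norm_num), show 30 + 1 = 31 by norm_num, hPp 31 (by norm_num)] at h
      norm_num at h
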