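import Pool.Agent.Helper48.BinomGcdDefs
import Pool.Agent.Helper48.BinomGcd

set_option autoImplicit false

open Pool.Agent.Helper48.BinomGcd

/-- The integers `k ≥ 2` for which the binomial coefficients `C(2k,k), C(3k,k), ..., C((k+1)k,k)`
have greatest common divisor `1` are exactly those for which the largest prime-power factor
`P (k+1)` of `k + 1` satisfies `P (k+1) ^ 2 < k + 1`. -/
theorem Pool.Agent.Results.MP_cb2649_nt.Shifted.result :
    ∀ k : ℕ, 2 ≤ k → (G k = 1 ↔ P (k + 1) ^ 2 < k + 1) := by
  intro k hk
  exact G_eq_one_iff (by omega)
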